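import Mathlib
import Pool.Agent.H917R2.Tr.Stubs

open scoped ComplexOrder InnerProductSpace Topology
open Filter

namespace H11R2.GEN

open H917R2.Tr

theorem mu_summ {H : Type} [NormedAddCommGroup H] [InnerProductSpace ℂ H] {ι : Type}
    (ξ : ι → H) (hξ : Sq ξ) (x : H →L[ℂ] H) : Summable fun k => ‖x (ξ k)‖ ^ 2 := by
  refine Summable.of_nonneg_of_le (fun k => by positivity) (fun k => ?_)
    (Summable.mul_left (‖x‖ ^ 2) hξ)
  have h1 := x.le_opNorm (ξ k)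
  have h2 : ‖x (ξ k)‖ ^ 2 ≤ (‖x‖ * ‖ξ k‖) ^ 2 := by
    gcongr
  calc ‖x (ξ k)‖ ^ 2 ≤ (‖x‖ * ‖ξ k‖) ^ 2 := h2
    _ = ‖x‖ ^ 2 * ‖ξ k‖ ^ 2 := by ring

theorem p_L_cop (h : T_cnt) : L_cop := by
  intro H _ _ _ ξ g n w hξ hg
  let ζ' : Fin n × ℕ → H := fun p => w p.1 (ξ p.2)
  have hs : ∀ x : H →L[ℂ] H, Summable fun p : Fin n × ℕ => ‖x (ζ' p)‖ ^ 2 := by
    intro x
    rw [summable_prod_of_nonneg (fun p => by positivity)]
    refine ⟨fun j => ?_, ?_⟩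
    · exact mu_summ ξ hξ (x * w j)
    · exact Summable.of_finite
  have hsq : Sq ζ' := by
    have := hs 1
    simpa [Sq] using this
  obtain ⟨ζ, hζ, hmu, hfix⟩ := h H (Fin n × ℕ) ζ' hsq
  refine ⟨ζ, hζ, ?_, ?_⟩
  · apply hfix g
    rintro ⟨j, k⟩
    show g (w j (ξ k)) = w j (ξ k)
    have := congrArg (fun f : H →L[ℂ] H => f (ξ k)) (hg j)
    simpa using this
  · intro x
    rw [hmu x]
    show (∑' p : Fin n × ℕ, ‖x (ζ' p)‖ ^ 2) = _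
    rw [(hs x).tsum_prod, tsum_fintype]
    rfl

end H11R2.GEN
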